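import Pool.Agent.R526.AA.Short

/-!
Long gaps between primes near almost every integer of every short interval.

For every lambda the integers of a block of length lambda log x all have a prime factor at most
x ^ delta, for a positive proportion of the blocks near almost every integer n of (x, x + y],
whenever x ^ delta ≤ y ≤ x.
-/

set_option autoImplicit false

open Finset

namespace Pool.Agent.Results.MP_3bc45c_nt.LongGapsNearAlmostAll

open Classical in
/-- Let `0 < δ < 1`, `lam > 0` and `ε > 0`.  There are `c > 0` and `K₀` such that for every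
`K ≥ K₀`, for all large `x` and all `y` with `x ^ δ ≤ y ≤ x`, all but at most `ε y` of the integers
`n` in `(x, x + y]` have the following property: among the `K` consecutive blocks
`(n + i l, n + (i + 1) l]`, `i < K`, of length `l = ⌈lam log x⌉`, at least `c K` consist only of
integers which have a prime factor at most `x ^ δ`; such a block contains no prime. -/
theorem result (δ lam ε : ℝ) (hδ : 0 < δ) (hδ1 : δ < 1) (hlam : 0 < lam) (hε : 0 < ε) :
    ∃ c : ℝ, 0 < c ∧ ∃ K₀ : ℕ, ∀ K : ℕ, K₀ ≤ K → ∃ x₀ : ℕ, ∀ x y : ℕ, x₀ ≤ x →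
      (x : ℝ) ^ δ ≤ y → y ≤ x →
      (((Ioc x (x + y)).filter (fun n =>
        (((range K).filter (fun i => ∀ m ∈ Ioc (n + i * ⌈lam * Real.log x⌉₊)
          (n + (i + 1) * ⌈lam * Real.log x⌉₊), ∃ p : ℕ, p.Prime ∧ (p : ℝ) ≤ (x : ℝ) ^ δ ∧
            p ∣ m)).card : ℝ) < c * K)).card : ℝ) ≤ ε * y :=
  Pool.Agent.R526.AA.short δ lam ε hδ hδ1 hlam hε

end Pool.Agent.Results.MP_3bc45c_nt.LongGapsNearAlmostAll
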