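import Pool.Agent.R526.RS.Fin

set_option autoImplicit false

/-!
# `G(X) ≍ (log X)²` after an arbitrarily small random perturbation of the primes

Author: helper526.

Fix `0 < δ ≤ 1` and `A ≥ 1`. Every prime `p` stays where it is with probability `1 - δ`, and moves with probability `δ`
to a uniformly random integer of the short interval `(p, p + W_p]`, `W_p ~ p / (log p)^A`, independently of the
others. Let `𝒮` be the resulting random set and `G_𝒮(x)` the largest gap between its consecutive elements up to `x`.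
Almost surely
`1 / (log(1/δ) / (2 e^{-γ}) + δ) ≤ liminf G_𝒮(x) / (log x)² ≤ limsup G_𝒮(x) / (log x)² ≤ 1 / δ`.

So the conjecture of Cramér `G(X) ≍ (log X)²`, for which neither bound is known for the primes, is true almost
surely after a random perturbation of the primes with arbitrarily small probability `δ` (smoothed analysis of the
conjecture). For `δ = 1` both constants are `1`, as in Cramér's theorem on his model. But for `4/5 ≤ δ < 1` the lower
constant is LARGER than `1`: if a proportion of at most `1/5` of the primes is left at its place and all others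
are replaced by random integers, then `G_𝒮(x) ~ (log x)²` is false almost surely, because of the irregularities
of the primes that stay.

Proof. Upper bound: the primes `p ∈ (n - W, n]`, of which there are `~ W / log n` by the prime number theorem with
error term (starting files), move independently into `(n, n + H]` with probability `~ δ H / W`. Lower bound: by
Maier's matrix method (starting files, helper510: `Maier.G.few_freq`) for `c < 2 e^{-γ} κ` there are `x^(1 - η)`
windows `(n, n + c (log n)²]`, `n ≤ x`, with at most `κ log n` primes; such a window is free of elements of `𝒮`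
with probability `n^(- κ log(1/δ) - c δ + o(1))`; the events for disjoint windows are negatively correlated, so that
the second moment method applies.
-/

open MeasureTheory ProbabilityTheory Filter Topology

/-- Let `0 < δ ≤ 1`, `A ≥ 1`, `W p ~ p / (log p)^A`, and let `ξ p` be independent random variables; for all large
primes `p` let `ξ p = p` with probability `1 - δ` and `ξ p = p + j` with probability `δ / W p` for each `1 ≤ j ≤ W p`.
Put `𝒮 = {ξ p : p prime}`. Almost surely, for every `ε > 0` and all large `x`: (1) there are consecutive elements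
`a < b ≤ x` of `𝒮` with `b - a ≥ (1 / (log(1/δ) / (2 e^{-γ}) + δ) - ε) (log x)²`, and (2) `b - a ≤ (1/δ + ε) (log x)²`
for all consecutive elements `a < b ≤ x` of `𝒮`. (3) If `4/5 ≤ δ < 1`, the constant in (1) is larger than `1`. -/
theorem Pool.Agent.Results.MP_3bc45c_nt.RandomlyMovedPrimes.result
    (A : ℕ) (hA : 1 ≤ A) (W : ℕ → ℕ)
    (hW : Tendsto (fun p : ℕ => (W p : ℝ) / ((p : ℝ) / (Real.log p) ^ A)) atTop (𝓝 1))
    (δ : ℝ) (hδ0 : 0 < δ) (hδ1 : δ ≤ 1)
    {Ω : Type} [MeasurableSpace Ω] (μ : Measure Ω) [IsProbabilityMeasure μ]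
    (ξ : ℕ → Ω → ℕ) (hξ : ∀ p, Measurable (ξ p)) (hind : iIndepFun ξ μ) (p₀ : ℕ)
    (hstay : ∀ p : ℕ, p.Prime → p₀ ≤ p → μ.real {ω | ξ p ω = p} = 1 - δ)
    (hmove : ∀ p : ℕ, p.Prime → p₀ ≤ p → ∀ j : ℕ, 1 ≤ j → j ≤ W p →
      μ.real {ω | ξ p ω = p + j} = δ / W p) :
    (∀ᵐ ω ∂μ, ∀ ε : ℝ, 0 < ε → ∀ᶠ x : ℝ in atTop,
      (∃ a b : ℕ, (∃ p : ℕ, p.Prime ∧ ξ p ω = a) ∧ (∃ p : ℕ, p.Prime ∧ ξ p ω = b) ∧
        a < b ∧ (b : ℝ) ≤ x ∧
        (∀ m : ℕ, (∃ p : ℕ, p.Prime ∧ ξ p ω = m) → ¬ (a < m ∧ m < b)) ∧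
        (1 / (Real.log (1 / δ) / (2 * Real.exp (-Real.eulerMascheroniConstant)) + δ) - ε) *
          (Real.log x) ^ 2 ≤ (b : ℝ) - a) ∧
      (∀ a b : ℕ, (∃ p : ℕ, p.Prime ∧ ξ p ω = a) → (∃ p : ℕ, p.Prime ∧ ξ p ω = b) →
        a < b → (b : ℝ) ≤ x →
        (∀ m : ℕ, (∃ p : ℕ, p.Prime ∧ ξ p ω = m) → ¬ (a < m ∧ m < b)) →
        (b : ℝ) - a ≤ (1 / δ + ε) * (Real.log x) ^ 2)) ∧
    (4 / 5 ≤ δ → δ < 1 →
      1 < 1 / (Real.log (1 / δ) / (2 * Real.exp (-Real.eulerMascheroniConstant)) + δ)) := by
  refine ⟨?_, Pool.Agent.R526.RS.const_gt δ⟩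
  filter_upwards [Pool.Agent.R526.RS.shifted μ hξ hind A hA W hW δ hδ0 hδ1 p₀
    (fun p hp hp0 => ⟨hstay p hp hp0, hmove p hp hp0⟩)] with ω hω ε hε
  filter_upwards [hω ε hε] with x hx
  exact ⟨hx.1, fun a b _ _ h1 h2 h3 => hx.2 a b h1 h2 h3⟩
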