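import Pool.Agent.R485.RG.Fin
import Pool.Agent.R485.RG.Base

set_option autoImplicit false

/-!
# Record gaps between primes around the numbers `Y n * α ^ (v n)`

Let `f(x) = log x (log₂ x)² log₄ x / (log₃ x)²`, the size of the largest gaps between consecutive primes
that are known to occur up to `x`. How often, and for which `α`, do the numbers `α ^ n` (or `α * n!`,
`q * α ^ (n²)` and so on) lie in the middle of a prime gap of record size? For every countable family of
such sequences at once:

* for every `t < 1` the set of the `α` of any interval in `[1, ∞)` for which every sequence of the family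
  has infinitely many members `y` without a prime within `c (1 - t) f(y)` has Hausdorff dimension at
  least `t`;
* the dimension is `1` if `c (1 - t) f(y)` is replaced by any `g(y) = o(f(y))`;
* a generic `α > 1` (residual set) has this property with `c f(y)`.

Method: the starting theorem on gaps of record size in all intervals, the countable form of the mass
transference principle, and Baire's theorem.
-/

open Filter Topology Set

namespace Pool.Agent.Results.MP_3bc45c_nt.RecordGapsNearPowers

/-- The record scale `f(x) = log x (log₂ x)² log₄ x / (log₃ x)²` (iterated natural logarithms). -/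
noncomputable def f (x : ℝ) : ℝ :=
  Real.log x * (Real.log (Real.log x)) ^ 2 * Real.log (Real.log (Real.log (Real.log x))) /
    (Real.log (Real.log (Real.log x))) ^ 2

/-- There is no prime within `T` of `y`. -/
def PrimeFree (T y : ℝ) : Prop := ∀ p : ℕ, p.Prime → T < |(p : ℝ) - y|

/-- The sequences admitted: `Y n` is bounded below by a positive constant for large `n`, `v n ≥ 1` for
large `n`, and `log (Y n) + v n` tends to infinity (so `Y n * α ^ (v n)` does, for every `α > 1`). -/
def Admissible (Y v : ℕ → ℝ) : Prop :=
  (∃ δ : ℝ, 0 < δ ∧ ∀ᶠ n in atTop, δ ≤ Y n) ∧ (∀ᶠ n in atTop, 1 ≤ v n) ∧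
    Tendsto (fun n => Real.log (Y n) + v n) atTop atTop

/-- The set of the `α` between `u` and `w` such that for every `i` there are infinitely many `n` for
which there is no prime within `g(y)` of `y = Y i n * α ^ (v i n)`. -/
def InGaps (Y v : ℕ → ℕ → ℝ) (g : ℝ → ℝ) (u w : ℝ) : Set ℝ :=
  {α : ℝ | α ∈ Ioo u w ∧ ∀ i, ∃ᶠ n in atTop, PrimeFree (g (Y i n * α ^ (v i n))) (Y i n * α ^ (v i n))}

/-- There is `c > 0` such that for every countable family of admissible sequences `Y i`, `v i`:

* for `1 ≤ u < w` and `0 < t < 1` the set of the `α` in `(u, w)` such that for every `i` there are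
  infinitely many `n` for which there is no prime within `c (1 - t) f(y)` of `y = Y i n * α ^ (v i n)`
  has Hausdorff dimension at least `t`;
* for every function `g` with `g / f → 0` and `1 ≤ u < w` the corresponding set with `g(y)` in place of
  `c (1 - t) f(y)` has Hausdorff dimension `1`;
* the set of the `α` which are at most `1` or have, for every `i`, infinitely many `n` without a prime
  within `c f(y)` of `y = Y i n * α ^ (v i n)` is residual. -/
theorem result : ∃ c : ℝ, 0 < c ∧ ∀ Y v : ℕ → ℕ → ℝ, (∀ i, Admissible (Y i) (v i)) →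
    (∀ u w t : ℝ, 1 ≤ u → u < w → 0 < t → t < 1 →
      ENNReal.ofReal t ≤ dimH (InGaps Y v (fun y => c * (1 - t) * f y) u w)) ∧
    (∀ g : ℝ → ℝ, Tendsto (fun y => g y / f y) atTop (𝓝 0) → ∀ u w : ℝ, 1 ≤ u → u < w →
      dimH (InGaps Y v g u w) = 1) ∧
    (∀ᶠ α : ℝ in residual ℝ, 1 < α → ∀ i, ∃ᶠ n in atTop,
      PrimeFree (c * f (Y i n * α ^ (v i n))) (Y i n * α ^ (v i n))) := by
  obtain ⟨c, hc, x₀, h⟩ := Pool.Agent.R485.RG.base
  refine ⟨c / 192, by positivity, fun Y v hYv => ⟨?_, ?_, ?_⟩⟩
  · intro u w t hu huw ht0 ht1
    exact Pool.Agent.R485.RG.dim_any hc h Y v hYv hu huw ht0 ht1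
  · intro g hg u w hu huw
    exact Pool.Agent.R485.RG.dim_o hc h Y v hYv hu huw g hg
  · exact Pool.Agent.R485.RG.resid hc h Y v hYv

end Pool.Agent.Results.MP_3bc45c_nt.RecordGapsNearPowers
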