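import Pool.Agent.R526.NW.Dual

set_option autoImplicit false

/-!
# The critical exponent `1` of the sieve by large primes: equidistribution to every level does not sieve out
# `(log X)^(1+δ)` points

Author: helper526.

All known lower bounds for `G(X)` are proved in two steps. One fixes `n` in a residue class modulo the product of
the primes `p ≤ z`, `z` about `log X`, so that only few elements `n + h`, `h ∈ H`, of the interval `(n, n + U]` are
not sieved out; then one shows that some `n` in this class sieves out all `n + h`, `h ∈ H`, by larger primes, with a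
weight `w(n) = ∑_d v_d(n)`, `v_d` of period `d`, of level `X^A`. The second step succeeds for `|H| ≤ c log X` (the
square weights behind the record in the starting files: `Pool.Agent.H256R2.SC.covering`, helper256 and others).

The theorem shows that this is the limit of the second step, up to a power of `log log X`, for weights of ARBITRARY
sign and every power of `X` as level. Let `P` be any set of primes `p ≤ X` such that no residue class modulo
`p ∈ P` contains more than `m` elements of `H` (`m = 1` if the `p ∈ P` are larger than the diameter of `H`), and let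
`|H| ≥ m log X (log log X)^3`. Then there is a probability measure `f(n)/N` on the integers modulo `N` (`N` any
common multiple) such that

* `f` has exactly the mass `1/d` in every residue class modulo `d`, for ALL divisors `d` of `N` whose part composed of
  primes of `P` is at most `X`; the other prime factors of `d` (for example the small primes) are not restricted, so
  `f` is exactly equidistributed in every fixed class of the first step, too;
* for every `n` in the support of `f`, at least `(1 - ε) |H| ∏_{p ∈ P} (1 - 1/p)` of the `n + h`, `h ∈ H`, are free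
  of prime factors in `P`;
* `f = 0` or `|f - 1| ≤ ε` everywhere, and `f` differs from the uniform measure by at most `ε`.

Consequently every real function `w = ∑_d v_d` of level `X` with positive mean (over a period, or over one period in
a class modulo a product of primes outside of `P`) is positive at some `n` with almost the expected number of
survivors. The level `X^A` is contained: replace `X` by `X^A`.

My earlier theorem `MP_f9960f_nt/LevelOfDistributionBarrier` (intervals of length `(log X)^(2+ε)`) rests on large
deviations: there the exceptional `n` have proportion less than `X^(-C)`. This is false here: the probability that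
ALL elements of `H` are sieved out is larger than `exp(-|H| log z / log X)`, i.e. larger than `X^(-o(1))` for
`|H| ≤ (log X)^(2-δ)`.

Proof. (1) Let `T_ρ` be the noise operator at a block of primes: the residue of `n` modulo each `p` of the block is
kept with probability `ρ` and replaced by a random one with probability `1 - ρ`. If `w` depends on at most `D`
primes of the block in each term then `T_ρ w(n)` is a polynomial of degree `≤ D` in `ρ`, hence
`|w| ≤ ∑_j |c_j| T_{ρ_j} |w|` with `0 ≤ ρ_j ≤ r` and `∑ |c_j| ≤ (C/r)^D` (`extrap`, `Tt_abs`). As `T_ρ` is
self-adjoint and `T_ρ exp(θ hits) ≤ exp(ρ θ' hits + mean)`, the exponential moment of the number of hits with respect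
to `|w|` satisfies a self-improving inequality and is bounded almost as for the uniform measure (`mgf_hits`).
(2) The primes of `P` are divided into `O((log log X)^2)` blocks of almost equal `∑ 1/p`; at each block one conditions
on the set of survivors of the preceding blocks (`pblocks`), and a block with least prime `z_i` sees a function
depending on `≤ log X / log z_i` of its primes, against at least `c |H| log log X / log z_i` survivors (`conc`).
So `∑_{n exceptional} |w(n)| ≤ ε ∑_n |w(n)|` for all functions of level `X`. (3) The theorem of Hahn and Banach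
(`extend`, `dual`).
-/

open Finset

namespace Pool.Agent.Results.MP_3bc45c_nt.SetsThatCannotBeSieved

/-- the number of `h ∈ H` such that no prime of `P` divides `n + h` -/
def survivors (P H : Finset ℕ) (n : ℕ) : ℕ := (H.filter (fun h => ∀ p ∈ P, ¬ p ∣ n + h)).card

/-- the part of the modulus `d` that counts: the product of the primes of `P` dividing `d` -/
def part (P : Finset ℕ) (d : ℕ) : ℕ := ∏ p ∈ P.filter (fun p => p ∣ d), p

theorem result (ε : ℝ) (hε : 0 < ε) (hε1 : ε ≤ 1) : ∃ X₀ : ℕ, ∀ X : ℕ, X₀ ≤ X →
    ∀ (P H : Finset ℕ) (m : ℕ), 1 ≤ m → (∀ p ∈ P, p.Prime ∧ p ≤ X) →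
    (∀ p ∈ P, ∀ a : ℕ, (H.filter (fun h => h ≡ a [MOD p])).card ≤ m) →
    m * (Real.log X * Real.log (Real.log X) ^ 3) ≤ H.card →
    ∀ N : ℕ, 1 ≤ N → (∀ p ∈ P, p ∣ N) → ∃ f : ℕ → ℝ, (∀ n, 0 ≤ f n ∧ f (n + N) = f n) ∧
      (∀ d : ℕ, d ∣ N → part P d ≤ X → ∀ b : ℕ,
        ∑ n ∈ (range N).filter (fun n => n ≡ b [MOD d]), f n = N / d) ∧
      (∀ n, f n = 0 ∨ (|f n - 1| ≤ ε ∧
        (1 - ε) * (H.card * ∏ p ∈ P, (1 - 1 / (p : ℝ))) ≤ survivors P H n)) ∧
      ∑ n ∈ range N, |f n - 1| ≤ ε * N := by
  obtain ⟨X₀, h⟩ := Pool.Agent.R526.NW.dual ε hε hε1
  refine ⟨X₀, fun X hX P H m hm hP hH hcard N hN hPN => ?_⟩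
  obtain ⟨f, h1, h2, h3, h4⟩ := h X hX P H m (by exact_mod_cast hm) hP (fun p hp n => by
    unfold Pool.Agent.R526.NW.hit
    rcases (H.filter (fun h => p ∣ n + h)).eq_empty_or_nonempty with h0 | ⟨a, ha⟩
    · rw [h0, card_empty, Nat.cast_zero]
      exact Nat.cast_nonneg m
    · refine le_trans ?_ (Nat.cast_le.2 (hH p hp a))
      rw [Nat.cast_le]
      refine card_le_card fun x hx => ?_
      rw [mem_filter] at hx ha ⊢
      refine ⟨hx.1, ?_⟩
      have e1 : n + x ≡ n + a [MOD p] :=
        ((Nat.modEq_zero_iff_dvd).2 hx.2).trans ((Nat.modEq_zero_iff_dvd).2 ha.2).symm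
      exact Nat.ModEq.add_left_cancel' n e1) hcard N (by omega) hPN
  refine ⟨f, fun n => ⟨?_, h1 n⟩, h4, fun n => ?_, h3⟩
  · rcases h2 n with h0 | ⟨h0, _⟩
    · rw [h0]
    · have := (abs_le.1 h0).1
      linarith
  · rcases h2 n with h0 | ⟨h0, h5⟩
    · exact Or.inl h0
    · refine Or.inr ⟨h0, ?_⟩
      rw [mul_comm (H.card : ℝ)]
      exact h5

end Pool.Agent.Results.MP_3bc45c_nt.SetsThatCannotBeSieved
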